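import Mathlib

set_option autoImplicit false

namespace Pool.Agent.Results.MP_390115_co.Exp

open Classical

/-- Labels `(i, f)`: `f j ≠ 0` marks the strict down-set, `f j = 2` marks the lower covers. -/
def Lab (n : ℕ) := {p : Fin n × (Fin n → Fin 3) // p.2 p.1 = 0}

def R {n : ℕ} (p q : Lab n) : Prop :=
  q.1.2 p.1.1 ≠ 0 ∧ ∀ j, p.1.2 j ≠ 0 → q.1.2 j = 1

lemma R_trans {n : ℕ} {p q r : Lab n} (h1 : R p q) (h2 : R q r) : R p r :=
  ⟨by rw [h2.2 _ h1.1]; decide, fun j hj => h2.2 j (by rw [h1.2 j hj]; decide)⟩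

lemma R_irrefl {n : ℕ} (p : Lab n) : ¬ R p p := fun h => h.1 p.2

@[reducible] def po (n : ℕ) : PartialOrder (Lab n) where
  le p q := p = q ∨ R p q
  lt p q := R p q
  le_refl _ := Or.inl rfl
  le_trans p q r h1 h2 := by
    rcases h1 with rfl | h1
    · exact h2
    · rcases h2 with rfl | h2
      · exact Or.inr h1
      · exact Or.inr (R_trans h1 h2)
  lt_iff_le_not_ge p q := by
    constructor
    · intro h
      refine ⟨Or.inr h, ?_⟩
      rintro (rfl | h')
      · exact R_irrefl _ h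
      · exact R_irrefl _ (R_trans h h')
    · rintro ⟨rfl | h, h'⟩
      · exact absurd (Or.inl rfl) h'
      · exact h
  le_antisymm p q h1 h2 := by
    rcases h1 with rfl | h1
    · rfl
    · rcases h2 with rfl | h2
      · rfl
      · exact absurd (R_trans h1 h2) (R_irrefl _)

theorem result (n : ℕ) : ∃ (P : Type) (_ : Finite P) (_ : PartialOrder P),
    Nat.card P ≤ n * 3 ^ n ∧ ∀ (Q : Type) [Finite Q] [PartialOrder Q], Nat.card Q ≤ n →
      ∃ f : Q ↪o P, ∀ x y : Q, x ⋖ y → f x ⋖ f y := by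
  haveI : Finite (Lab n) := Subtype.finite
  letI := po n
  refine ⟨Lab n, inferInstance, po n, ?_, fun Q _ _ hQ => ?_⟩
  · refine (Finite.card_subtype_le _).trans (le_of_eq ?_)
    simp
  · haveI := Fintype.ofFinite Q
    obtain ⟨e⟩ : Nonempty (Q ↪ Fin n) := Function.Embedding.nonempty_of_card_le (by
      rw [← Nat.card_eq_fintype_card, Fintype.card_fin]; exact hQ)
    let g : Q → Fin n → Fin 3 := fun y j =>
      if ∃ x, e x = j ∧ x ⋖ y then 2 else if ∃ x, e x = j ∧ x < y then 1 else 0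
    have g0 : ∀ y j, g y j ≠ 0 ↔ ∃ x, e x = j ∧ x < y := by
      intro y j
      simp only [g]
      split_ifs with h1 h2
      · obtain ⟨x, h, h'⟩ := h1
        exact ⟨fun _ => ⟨x, h, h'.lt⟩, fun _ => by decide⟩
      · exact ⟨fun _ => h2, fun _ => by decide⟩
      · simpa using h2
    let f : Q → Lab n := fun y => ⟨(e y, g y), by
      by_contra h
      obtain ⟨x, h1, h2⟩ := (g0 y (e y)).1 h
      rw [e.injective h1] at h2
      exact lt_irrefl _ h2⟩
    have hR : ∀ x y, R (f x) (f y) ↔ x < y := by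
      intro x y
      constructor
      · intro h
        obtain ⟨z, h1, h2⟩ := (g0 y (e x)).1 h.1
        rwa [e.injective h1] at h2
      · intro h
        refine ⟨(g0 y (e x)).2 ⟨x, rfl, h⟩, fun j hj => ?_⟩
        obtain ⟨z, rfl, hz⟩ := (g0 x j).1 hj
        show g y (e z) = 1
        simp only [g]
        rw [if_neg, if_pos ⟨z, rfl, hz.trans h⟩]
        rintro ⟨w, h1, h2⟩
        rw [e.injective h1] at h2
        exact h2.2 hz h
    have hinj : Function.Injective f := fun x y h =>
      e.injective (congrArg (fun p : Lab n => p.1.1) h)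
    refine ⟨⟨⟨f, hinj⟩, ?_⟩, fun x y h => ⟨(hR x y).2 h.lt, ?_⟩⟩
    · intro x y
      show f x = f y ∨ R (f x) (f y) ↔ x ≤ y
      rw [hR, hinj.eq_iff, le_iff_eq_or_lt]
    · intro z h1 h2
      have h3 : g y (e x) = 1 := (show R z (f y) from h2).2 _ (show R (f x) z from h1).1
      simp only [g] at h3
      rw [if_pos ⟨x, rfl, h⟩] at h3
      exact absurd h3 (by decide)

end Pool.Agent.Results.MP_390115_co.Exp
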